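import Mathlib

/-!
# Cash thresholds in interval subtraction games: the exact preperiod

For `1 ≤ L ≤ M` and `A = {L, …, M}` the cash thresholds of the subtraction game on `A` are
computed in closed form (this part is taken from the starting library), and the least number from
which on `f (n + L + M) = f n + M` holds is determined, for both players.
-/

set_option autoImplicit false

namespace Pool.Agent.Results.MP_88cfb8_co.ExactPreperiod

/-- The player who moves first (Player I) wins the subtraction game on `{L, …, M}` from a pile of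
`n` stones: some legal move (remove `a` stones, `L ≤ a ≤ M`, `0 < a ≤ n`) leads to a pile from
which the next player to move does not win.  A player without a legal move loses. -/
def PlayerOneWins (L M : ℕ) (n : ℕ) : Prop :=
  ∃ a, ∃ _ : 0 < a ∧ a ≤ n, L ≤ a ∧ a ≤ M ∧ ¬ PlayerOneWins L M (n - a)
termination_by n
decreasing_by omega

/-- `fI` and `fII` are the cash thresholds of the subtraction game on `{L, …, M}`: they satisfy
the defining recursion. -/
structure IsCashThreshold (L M : ℕ) (fI fII : ℕ → ℕ) : Prop where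
  small : ∀ n, n < L → fI n = 0 ∧ fII n = 0
  two : ∀ n, L ≤ n →
    IsGreatest {c | ∃ a, L ≤ a ∧ a ≤ M ∧ a ≤ n ∧ c = fI (n - a)} (fII n)
  one_of_wins : ∀ n, L ≤ n → PlayerOneWins L M n →
    IsLeast {c | ∃ a, L ≤ a ∧ a ≤ M ∧ a ≤ n ∧ ¬ PlayerOneWins L M (n - a) ∧
      c = fII (n - a) + a} (fI n)
  one_of_not_wins : ∀ n, L ≤ n → ¬ PlayerOneWins L M n →
    IsLeast {c | ∃ a, L ≤ a ∧ a ≤ M ∧ a ≤ n ∧ fI (n - a) = fII n ∧
      c = fII (n - a) + a} (fI n)

/-- The profile of the thresholds: `0` below `L`, then `L`, then slope one from `2 L - 1` on. -/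
def phi (L t : ℕ) : ℕ := if t < L then 0 else max L (t + 1 - L)

lemma playerOneWins_iff (L M n : ℕ) : PlayerOneWins L M n ↔
    ∃ a, (0 < a ∧ a ≤ n) ∧ L ≤ a ∧ a ≤ M ∧ ¬ PlayerOneWins L M (n - a) := by
  rw [PlayerOneWins]
  constructor
  · rintro ⟨a, h1, h2⟩; exact ⟨a, h1, h2⟩
  · rintro ⟨a, h1, h2⟩; exact ⟨a, h1, h2⟩

lemma divmod (P k r : ℕ) (hr : r < P) : (k * P + r) / P = k ∧ (k * P + r) % P = r := by
  rw [Nat.div_mod_unique (by omega)]
  refine ⟨by ring, hr⟩

lemma wins_iff_mod (L M : ℕ) (hL : 1 ≤ L) (hLM : L ≤ M) (n : ℕ) :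
    PlayerOneWins L M n ↔ L ≤ n % (L + M) := by
  induction n using Nat.strong_induction_on with
  | _ n ih =>
    rw [playerOneWins_iff]
    have hP : 0 < L + M := by omega
    constructor
    · rintro ⟨a, ⟨ha0, han⟩, haL, haM, hw⟩
      rw [ih (n - a) (by omega)] at hw
      have h1 := Nat.div_add_mod' (n - a) (L + M)
      have h2 : n = (n - a) / (L + M) * (L + M) + ((n - a) % (L + M) + a) := by omega
      rw [h2, (divmod _ _ _ (by omega)).2]
      omega
    · intro h
      have h1 := Nat.div_add_mod' n (L + M)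
      have h3 := Nat.mod_lt n hP
      refine ⟨min (n % (L + M)) M, ⟨by omega, by omega⟩, by omega, by omega, ?_⟩
      rw [ih _ (by omega)]
      have h2 : n - min (n % (L + M)) M =
          n / (L + M) * (L + M) + (n % (L + M) - min (n % (L + M)) M) := by omega
      rw [h2, (divmod _ _ _ (by omega)).2]
      omega

/-- The closed form of the first threshold. -/
def F1 (L M n : ℕ) : ℕ :=
  n / (L + M) * L + phi L (n % (L + M) + n / (L + M) * (M - L))

/-- The closed form of the second threshold. -/
def F2 (L M n : ℕ) : ℕ :=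
  if n % (L + M) < L then
    n / (L + M) * L + (n % (L + M) + n / (L + M) * (M - L) + 1 - L)
  else
    max (n / (L + M) * L + phi L (n % (L + M) + n / (L + M) * (M - L) - L))
      (if n % (L + M) < M then n / (L + M) * M else 0)

lemma F1_eq (L M k r : ℕ) (hr : r < L + M) :
    F1 L M (k * (L + M) + r) = k * L + phi L (r + k * (M - L)) := by
  unfold F1
  rw [(divmod _ _ _ hr).1, (divmod _ _ _ hr).2]

lemma F2_lt (L M k r : ℕ) (hr : r < L + M) (h : r < L) :
    F2 L M (k * (L + M) + r) = k * L + (r + k * (M - L) + 1 - L) := by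
  unfold F2
  rw [(divmod _ _ _ hr).1, (divmod _ _ _ hr).2, if_pos h]

lemma F2_ge (L M k r : ℕ) (hr : r < L + M) (h : L ≤ r) :
    F2 L M (k * (L + M) + r) =
      max (k * L + phi L (r + k * (M - L) - L)) (if r < M then k * M else 0) := by
  unfold F2
  rw [(divmod _ _ _ hr).1, (divmod _ _ _ hr).2, if_neg (by omega)]

lemma phi_mono (L : ℕ) {s t : ℕ} (h : s ≤ t) : phi L s ≤ phi L t := by
  unfold phi; split_ifs <;> omega

theorem isCashThreshold_F (L M : ℕ) (hL : 1 ≤ L) (hLM : L ≤ M) :
    IsCashThreshold L M (F1 L M) (F2 L M) := by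
  have hP : 0 < L + M := by omega
  have hdec : ∀ n, ∃ k r, r < L + M ∧ n = k * (L + M) + r := fun n =>
    ⟨n / (L + M), n % (L + M), Nat.mod_lt _ hP, (Nat.div_add_mod' n (L + M)).symm⟩
  refine ⟨?_, ?_, ?_, ?_⟩
  · intro n hn
    have h0 : n = 0 * (L + M) + n := by omega
    constructor
    · rw [h0, F1_eq _ _ _ _ (by omega)]
      unfold phi; split_ifs <;> omega
    · rw [h0, F2_lt _ _ _ _ (by omega) hn]; omega
  · intro n hn
    obtain ⟨k, r, hr, rfl⟩ := hdec n
    by_cases hrL : r < L
    · obtain ⟨K, rfl⟩ : ∃ K, k = K + 1 := by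
        cases k with
        | zero => omega
        | succ K => exact ⟨K, rfl⟩
      rw [F2_lt _ _ _ _ hr hrL]
      have e1 : (K + 1) * (L + M) = K * (L + M) + (L + M) := by ring
      have e2 : (K + 1) * L = K * L + L := by ring
      have e3 : (K + 1) * (M - L) = K * (M - L) + (M - L) := by ring
      constructor
      · refine ⟨L, le_refl _, hLM, by omega, ?_⟩
        have h1 : (K + 1) * (L + M) + r - L = K * (L + M) + (r + M) := by omega
        rw [h1, F1_eq _ _ _ _ (by omega)]
        unfold phi; split_ifs <;> omega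
      · rintro c ⟨a, ha1, ha2, ha3, rfl⟩
        have h1 : (K + 1) * (L + M) + r - a = K * (L + M) + (r + (L + M) - a) := by omega
        rw [h1, F1_eq _ _ _ _ (by omega)]
        unfold phi; split_ifs <;> omega
    · rw [F2_ge _ _ _ _ hr (by omega)]
      have e4 : k * M = k * L + k * (M - L) := by
        rw [← Nat.mul_add]; congr 1; omega
      constructor
      · rcases le_total (if r < M then k * M else 0) (k * L + phi L (r + k * (M - L) - L)) with h | h
        · rw [max_eq_left h]
          refine ⟨L, le_refl _, hLM, by omega, ?_⟩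
          have h1 : k * (L + M) + r - L = k * (L + M) + (r - L) := by omega
          rw [h1, F1_eq _ _ _ _ (by omega)]
          congr 2; omega
        · rw [max_eq_right h]
          by_cases hrM : r < M
          · rw [if_pos hrM] at h ⊢
            cases k with
            | zero =>
              refine ⟨L, le_refl _, hLM, by omega, ?_⟩
              have h1 : 0 * (L + M) + r - L = 0 * (L + M) + (r - L) := by omega
              rw [h1, F1_eq _ _ _ _ (by omega)]
              have : r + 0 * (M - L) - L = r - L + 0 * (M - L) := by omega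
              rw [this] at h
              omega
            | succ K =>
              have e1 : (K + 1) * (L + M) = K * (L + M) + (L + M) := by ring
              have e5 : (K + 1) * M = K * M + M := by ring
              have e6 : K * M = K * L + K * (M - L) := by
                rw [← Nat.mul_add]; congr 1; omega
              refine ⟨r + 1, by omega, by omega, by omega, ?_⟩
              have h1 : (K + 1) * (L + M) + r - (r + 1) = K * (L + M) + (L + M - 1) := by omega
              rw [h1, F1_eq _ _ _ _ (by omega)]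
              unfold phi; split_ifs <;> omega
          · rw [if_neg hrM] at h ⊢
            refine ⟨L, le_refl _, hLM, by omega, ?_⟩
            have h1 : k * (L + M) + r - L = k * (L + M) + (r - L) := by omega
            rw [h1, F1_eq _ _ _ _ (by omega)]
            have : r + k * (M - L) - L = r - L + k * (M - L) := by omega
            rw [this] at h
            omega
      · rintro c ⟨a, ha1, ha2, ha3, rfl⟩
        by_cases har : a ≤ r
        · have h1 : k * (L + M) + r - a = k * (L + M) + (r - a) := by omega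
          rw [h1, F1_eq _ _ _ _ (by omega)]
          refine le_trans ?_ (le_max_left _ _)
          have := phi_mono L (show r - a + k * (M - L) ≤ r + k * (M - L) - L by omega)
          omega
        · cases k with
          | zero => omega
          | succ K =>
            have e1 : (K + 1) * (L + M) = K * (L + M) + (L + M) := by ring
            have e5 : (K + 1) * M = K * M + M := by ring
            have e6 : K * M = K * L + K * (M - L) := by
              rw [← Nat.mul_add]; congr 1; omega
            have h1 : (K + 1) * (L + M) + r - a = K * (L + M) + (r + (L + M) - a) := by omega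
            rw [h1, F1_eq _ _ _ _ (by omega), if_pos (show r < M by omega)]
            refine le_trans ?_ (le_max_right _ _)
            unfold phi; split_ifs <;> omega
  · intro n hn hw
    rw [wins_iff_mod L M hL hLM] at hw
    obtain ⟨k, r, hr, rfl⟩ := hdec n
    rw [(divmod _ _ _ hr).2] at hw
    rw [F1_eq _ _ _ _ hr]
    constructor
    · refine ⟨r - min (L - 1) (r - L), by omega, by omega, by omega, ?_, ?_⟩
      · have h1 : k * (L + M) + r - (r - min (L - 1) (r - L)) =
            k * (L + M) + min (L - 1) (r - L) := by omega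
        rw [wins_iff_mod L M hL hLM, h1, (divmod _ _ _ (by omega)).2]
        omega
      · have h1 : k * (L + M) + r - (r - min (L - 1) (r - L)) =
            k * (L + M) + min (L - 1) (r - L) := by omega
        rw [h1, F2_lt _ _ _ _ (by omega) (by omega)]
        unfold phi; split_ifs <;> omega
    · rintro c ⟨a, ha1, ha2, ha3, hnw, rfl⟩
      rw [wins_iff_mod L M hL hLM] at hnw
      by_cases har : a ≤ r
      · have h1 : k * (L + M) + r - a = k * (L + M) + (r - a) := by omega
        rw [h1, (divmod _ _ _ (by omega)).2] at hnw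
        rw [h1, F2_lt _ _ _ _ (by omega) (by omega)]
        unfold phi; split_ifs <;> omega
      · cases k with
        | zero => omega
        | succ K =>
          have e1 : (K + 1) * (L + M) = K * (L + M) + (L + M) := by ring
          have h1 : (K + 1) * (L + M) + r - a = K * (L + M) + (r + (L + M) - a) := by omega
          rw [h1, (divmod _ _ _ (by omega)).2] at hnw
          omega
  · intro n hn hw
    rw [wins_iff_mod L M hL hLM] at hw
    obtain ⟨k, r, hr, rfl⟩ := hdec n
    rw [(divmod _ _ _ hr).2] at hw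
    obtain ⟨K, rfl⟩ : ∃ K, k = K + 1 := by
      cases k with
      | zero => omega
      | succ K => exact ⟨K, rfl⟩
    rw [F1_eq _ _ _ _ hr, F2_lt _ _ _ _ hr (by omega)]
    have e1 : (K + 1) * (L + M) = K * (L + M) + (L + M) := by ring
    have e2 : (K + 1) * L = K * L + L := by ring
    have e3 : (K + 1) * (M - L) = K * (M - L) + (M - L) := by ring
    constructor
    · have h1 : (K + 1) * (L + M) + r - L = K * (L + M) + (r + M) := by omega
      refine ⟨L, le_refl _, hLM, by omega, ?_, ?_⟩
      · rw [h1, F1_eq _ _ _ _ (by omega)]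
        unfold phi; split_ifs <;> omega
      · rw [h1, F2_ge _ _ _ _ (by omega) (by omega), if_neg (by omega), e2, e3]
        unfold phi; split_ifs <;> omega
    · rintro c ⟨a, ha1, ha2, ha3, hF, rfl⟩
      have h1 : (K + 1) * (L + M) + r - a = K * (L + M) + (r + (L + M) - a) := by omega
      rw [h1, F1_eq _ _ _ _ (by omega)] at hF
      rw [h1, F2_ge _ _ _ _ (by omega) (by omega)]
      have h2 := le_max_left (K * L + phi L (r + (L + M) - a + K * (M - L) - L))
        (if r + (L + M) - a < M then K * M else 0)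
      have h3 : (K + 1) * L + phi L (r + (K + 1) * (M - L)) ≤
          K * L + phi L (r + (L + M) - a + K * (M - L) - L) + a := by
        rw [e2, e3]
        rw [e2, e3] at hF
        unfold phi at hF ⊢
        split_ifs at hF ⊢ <;> omega
      omega

theorem unique (L M : ℕ) (hL : 1 ≤ L) (hLM : L ≤ M) {fI fII gI gII : ℕ → ℕ}
    (hf : IsCashThreshold L M fI fII) (hg : IsCashThreshold L M gI gII) :
    ∀ n, fI n = gI n ∧ fII n = gII n := by
  intro n
  induction n using Nat.strong_induction_on with
  | _ n ih =>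
    by_cases hn : n < L
    · have h1 := hf.small n hn
      have h2 := hg.small n hn
      exact ⟨h1.1.trans h2.1.symm, h1.2.trans h2.2.symm⟩
    rw [not_lt] at hn
    have h2 : fII n = gII n := by
      have a1 := hf.two n hn
      have a2 := hg.two n hn
      have hs : {c | ∃ a, L ≤ a ∧ a ≤ M ∧ a ≤ n ∧ c = fI (n - a)} =
          {c | ∃ a, L ≤ a ∧ a ≤ M ∧ a ≤ n ∧ c = gI (n - a)} := by
        ext c
        constructor
        · rintro ⟨a, b1, b2, b3, b4⟩
          exact ⟨a, b1, b2, b3, b4.trans (ih (n - a) (by omega)).1⟩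
        · rintro ⟨a, b1, b2, b3, b4⟩
          exact ⟨a, b1, b2, b3, b4.trans (ih (n - a) (by omega)).1.symm⟩
      rw [hs] at a1
      exact a1.unique a2
    refine ⟨?_, h2⟩
    by_cases hw : PlayerOneWins L M n
    · have a1 := hf.one_of_wins n hn hw
      have a2 := hg.one_of_wins n hn hw
      have hs : {c | ∃ a, L ≤ a ∧ a ≤ M ∧ a ≤ n ∧ ¬ PlayerOneWins L M (n - a) ∧
            c = fII (n - a) + a} =
          {c | ∃ a, L ≤ a ∧ a ≤ M ∧ a ≤ n ∧ ¬ PlayerOneWins L M (n - a) ∧
            c = gII (n - a) + a} := by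
        ext c
        constructor
        · rintro ⟨a, b1, b2, b3, b5, b4⟩
          exact ⟨a, b1, b2, b3, b5, by rw [b4, (ih (n - a) (by omega)).2]⟩
        · rintro ⟨a, b1, b2, b3, b5, b4⟩
          exact ⟨a, b1, b2, b3, b5, by rw [b4, (ih (n - a) (by omega)).2]⟩
      rw [hs] at a1
      exact a1.unique a2
    · have a1 := hf.one_of_not_wins n hn hw
      have a2 := hg.one_of_not_wins n hn hw
      have hs : {c | ∃ a, L ≤ a ∧ a ≤ M ∧ a ≤ n ∧ fI (n - a) = fII n ∧
            c = fII (n - a) + a} =
          {c | ∃ a, L ≤ a ∧ a ≤ M ∧ a ≤ n ∧ gI (n - a) = gII n ∧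
            c = gII (n - a) + a} := by
        ext c
        constructor
        · rintro ⟨a, b1, b2, b3, b5, b4⟩
          have := ih (n - a) (by omega)
          exact ⟨a, b1, b2, b3, by rw [← this.1, b5, h2], by rw [b4, this.2]⟩
        · rintro ⟨a, b1, b2, b3, b5, b4⟩
          have := ih (n - a) (by omega)
          exact ⟨a, b1, b2, b3, by rw [this.1, b5, h2], by rw [b4, this.2]⟩
      rw [hs] at a1
      exact a1.unique a2

/-- the number `⌊(2 L - 2) / (M - L)⌋` -/
def kk (L M : ℕ) : ℕ := (2 * L - 2) / (M - L)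

/-- the exact preperiod of `f_I`, for `2 ≤ L < M` -/
def thI (L M : ℕ) : ℕ := 2 * (kk L M * L) + 2 * L - 1

/-- the exact preperiod of `f_II`, for `2 ≤ L < M` -/
def thII (L M : ℕ) : ℕ := if M < 3 * L - 1 then 2 * (kk L M * L) + L - 1 else 3 * L - 1

lemma kk_spec {L M : ℕ} (hLM : L < M) :
    kk L M * (M - L) ≤ 2 * L - 2 ∧ 2 * L - 2 < kk L M * (M - L) + (M - L) := by
  have h0 : 0 < M - L := by omega
  have h1 := Nat.div_mul_le_self (2 * L - 2) (M - L)
  have h2 := Nat.lt_div_mul_add (a := 2 * L - 2) h0
  unfold kk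
  exact ⟨h1, h2⟩

lemma le_kk {L M k : ℕ} (hLM : L < M) (h : k * (M - L) ≤ 2 * L - 2) : k * L ≤ kk L M * L := by
  apply Nat.mul_le_mul_right
  unfold kk
  rwa [Nat.le_div_iff_mul_le (by omega)]

lemma succ_le_kk {L M k : ℕ} (hLM : L < M) (h : k * (M - L) + (M - L) ≤ 2 * L - 2) :
    k * L + L ≤ kk L M * L := by
  have h1 : (k + 1) * (M - L) ≤ 2 * L - 2 := by
    rw [Nat.add_mul, one_mul]; exact h
  have h2 := le_kk hLM h1
  rw [Nat.add_mul, one_mul] at h2
  exact h2

lemma dec (L M : ℕ) (hL : 1 ≤ L) (n : ℕ) : ∃ k r, r < L + M ∧ n = k * (L + M) + r :=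
  ⟨n / (L + M), n % (L + M), Nat.mod_lt _ (by omega), (Nat.div_add_mod' n (L + M)).symm⟩

/-- the trivial cases -/
theorem easy (L M : ℕ) (hL : 1 ≤ L) (hLM : L ≤ M) (h : L = 1 ∨ M = L) (n : ℕ) :
    F1 L M (n + (L + M)) = F1 L M n + M ∧ F2 L M (n + (L + M)) = F2 L M n + M := by
  obtain ⟨k, r, hr, rfl⟩ := dec L M hL n
  have h1 : k * (L + M) + r + (L + M) = (k + 1) * (L + M) + r := by ring
  have e2 : (k + 1) * L = k * L + L := by ring
  have e3 : (k + 1) * (M - L) = k * (M - L) + (M - L) := by ring
  have e5 : (k + 1) * M = k * M + M := by ring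
  have e6 : k * M = k * L + k * (M - L) := by
    rw [← Nat.mul_add]; congr 1; omega
  rw [h1]
  constructor
  · rw [F1_eq _ _ _ _ hr, F1_eq _ _ _ _ hr, e2, e3]
    rcases h with h | h
    · unfold phi; split_ifs <;> omega
    · have h3 : M - L = 0 := by omega
      rw [h3]; simp only [Nat.mul_zero, Nat.add_zero]; omega
  · by_cases hrL : r < L
    · rw [F2_lt _ _ _ _ hr hrL, F2_lt _ _ _ _ hr hrL, e2, e3]
      rcases h with h | h
      · omega
      · have h3 : M - L = 0 := by omega
        rw [h3]; simp only [Nat.mul_zero, Nat.add_zero]; omega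
    · rw [F2_ge _ _ _ _ hr (by omega), F2_ge _ _ _ _ hr (by omega), e2, e3, e5]
      rcases h with h | h
      · unfold phi; split_ifs <;> omega
      · have h3 : M - L = 0 := by omega
        rw [h3]; simp only [Nat.mul_zero, Nat.add_zero]
        rw [if_neg (by omega), if_neg (by omega)]; omega

/-- `f_I` is quasi-periodic from `thI` on -/
theorem F1_shift (L M : ℕ) (hL : 2 ≤ L) (hLM : L < M) (n : ℕ) (hn : thI L M ≤ n) :
    F1 L M (n + (L + M)) = F1 L M n + M := by
  obtain ⟨k, r, hr, rfl⟩ := dec L M (by omega) n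
  have h1 : k * (L + M) + r + (L + M) = (k + 1) * (L + M) + r := by ring
  have e2 : (k + 1) * L = k * L + L := by ring
  have e3 : (k + 1) * (M - L) = k * (M - L) + (M - L) := by ring
  have e6 : k * (L + M) = 2 * (k * L) + k * (M - L) := by
    have : L + M = 2 * L + (M - L) := by omega
    rw [this]; ring
  have hy : 2 * L - 1 ≤ r + k * (M - L) := by
    by_contra hc
    have h2 := le_kk (k := k) hLM (by omega)
    unfold thI at hn
    omega
  rw [h1, F1_eq _ _ _ _ hr, F1_eq _ _ _ _ hr, e2, e3]
  unfold phi
  split_ifs <;> omega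

/-- `f_I` is not quasi-periodic at `thI - 1` -/
theorem F1_fail (L M : ℕ) (hL : 2 ≤ L) (hLM : L < M) :
    F1 L M (thI L M - 1 + (L + M)) ≠ F1 L M (thI L M - 1) + M := by
  obtain ⟨h1, h2⟩ := kk_spec hLM
  have e6 : kk L M * (L + M) = 2 * (kk L M * L) + kk L M * (M - L) := by
    have : L + M = 2 * L + (M - L) := by omega
    rw [this]; ring
  have e0 : thI L M - 1 = kk L M * (L + M) + (2 * L - 2 - kk L M * (M - L)) := by
    unfold thI; omega
  have h3 : kk L M * (L + M) + (2 * L - 2 - kk L M * (M - L)) + (L + M) =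
      (kk L M + 1) * (L + M) + (2 * L - 2 - kk L M * (M - L)) := by ring
  have e2 : (kk L M + 1) * L = kk L M * L + L := by ring
  have e3 : (kk L M + 1) * (M - L) = kk L M * (M - L) + (M - L) := by ring
  rw [e0, h3, F1_eq _ _ _ _ (by omega), F1_eq _ _ _ _ (by omega), e2, e3]
  unfold phi
  split_ifs <;> omega

/-- `f_II` is quasi-periodic from `thII` on -/
theorem F2_shift (L M : ℕ) (hL : 2 ≤ L) (hLM : L < M) (n : ℕ) (hn : thII L M ≤ n) :
    F2 L M (n + (L + M)) = F2 L M n + M := by
  obtain ⟨k, r, hr, rfl⟩ := dec L M (by omega) n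
  have h1 : k * (L + M) + r + (L + M) = (k + 1) * (L + M) + r := by ring
  have e2 : (k + 1) * L = k * L + L := by ring
  have e3 : (k + 1) * (M - L) = k * (M - L) + (M - L) := by ring
  have e5 : (k + 1) * M = k * M + M := by ring
  have e7 : k * M = k * L + k * (M - L) := by
    rw [← Nat.mul_add]; congr 1; omega
  have e6 : k * (L + M) = 2 * (k * L) + k * (M - L) := by
    have : L + M = 2 * L + (M - L) := by omega
    rw [this]; ring
  obtain ⟨s1, s2⟩ := kk_spec hLM
  have hk0 : k = 0 ∨ (M - L ≤ k * (M - L) ∧ L ≤ k * L) := by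
    rcases Nat.eq_zero_or_pos k with h | h
    · exact Or.inl h
    · exact Or.inr ⟨Nat.le_mul_of_pos_left _ h, Nat.le_mul_of_pos_left _ h⟩
  -- the bound for `n` in the exceptional cases
  have hA : k * (M - L) + (M - L) ≤ 2 * L - 2 → 2 * (k * L) + 2 * L ≤ 2 * (kk L M * L) := by
    intro h
    have := succ_le_kk hLM h
    omega
  have hB : k * (M - L) ≤ 2 * L - 2 → k * L ≤ kk L M * L := fun h => le_kk hLM h
  unfold thII at hn
  rw [h1]
  by_cases hrL : r < L
  · rw [F2_lt _ _ _ _ hr hrL, F2_lt _ _ _ _ hr hrL, e2, e3]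
    have hy : L - 1 ≤ r + k * (M - L) := by
      by_contra hc
      have h2 := hB (by omega)
      split_ifs at hn with h3
      · omega
      · rcases hk0 with h4 | ⟨h4, _⟩
        · rw [h4] at hn e6
          omega
        · omega
    omega
  · rw [F2_ge _ _ _ _ hr (by omega), F2_ge _ _ _ _ hr (by omega), e2, e3, e5]
    have hcase : 3 * L - 1 ≤ r + k * (M - L) ∨ (r < M ∧ L ≤ k * (M - L)) ∨
        (r < M ∧ r + k * (M - L) + (M - L) < 2 * L) := by
      by_contra hc
      push Not at hc
      obtain ⟨c1, c2, c3⟩ := hc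
      split_ifs at hn with h3
      · rcases Nat.lt_or_ge r M with h4 | h4
        · have c2' := c2 h4
          rcases hk0 with h5 | ⟨h5, _⟩
          · rw [h5] at hn e6 c1 hA hB
            have := hA (by omega)
            omega
          · have := hA (by omega)
            omega
        · have := hA (by omega)
          omega
      · rcases Nat.lt_or_ge r M with h4 | h4
        · have c2' := c2 h4
          rcases hk0 with h5 | ⟨h5, _⟩
          · rw [h5] at hn e6
            omega
          · omega
        · omega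
    clear hn hA hB hk0 s1 s2 h1 e6
    rw [e7]
    generalize k * (M - L) = x at *
    generalize k * L = y at *
    clear e7 e5 e2 e3
    by_cases hrM : r < M
    · rw [if_pos hrM, if_pos hrM]
      rcases hcase with h2 | ⟨h2, h3⟩ | ⟨h2, h3⟩
      · rw [phi, if_neg (by omega), phi, if_neg (by omega)]; omega
      · rw [phi, phi]; split_ifs <;> omega
      · rw [phi, if_pos (by omega), phi, if_pos (by omega)]; omega
    · rw [if_neg hrM, if_neg hrM]
      have h2 : 3 * L - 1 ≤ r + x := by omega
      rw [phi, if_neg (by omega), phi, if_neg (by omega)]; omega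

/-- `f_II` is not quasi-periodic at `thII - 1` -/
theorem F2_fail (L M : ℕ) (hL : 2 ≤ L) (hLM : L < M) :
    F2 L M (thII L M - 1 + (L + M)) ≠ F2 L M (thII L M - 1) + M := by
  obtain ⟨h1, h2⟩ := kk_spec hLM
  unfold thII
  split_ifs with h
  · obtain ⟨k, hk⟩ : ∃ k, kk L M = k + 1 := by
      refine ⟨kk L M - 1, ?_⟩
      have : kk L M ≠ 0 := by
        intro h0
        rw [h0] at h2
        omega
      omega
    rw [hk] at h1 h2 ⊢
    have e2 : (k + 1) * L = k * L + L := by ring
    have e3 : (k + 1) * (M - L) = k * (M - L) + (M - L) := by ring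
    have e6 : k * (L + M) = 2 * (k * L) + k * (M - L) := by
      have : L + M = 2 * L + (M - L) := by omega
      rw [this]; ring
    rw [e3] at h1 h2
    have e0 : 2 * ((k + 1) * L) + L - 1 - 1 = k * (L + M) + (3 * L - 2 - k * (M - L)) := by
      rw [e2, e6]; omega
    have h3 : k * (L + M) + (3 * L - 2 - k * (M - L)) + (L + M) =
        (k + 1) * (L + M) + (3 * L - 2 - k * (M - L)) := by ring
    rw [e0, h3, F2_ge _ _ _ _ (by omega) (by omega), F2_ge _ _ _ _ (by omega) (by omega), e2, e3,
      if_neg (by omega), if_neg (by omega)]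
    unfold phi
    split_ifs <;> omega
  · have e0 : 3 * L - 1 - 1 = 0 * (L + M) + (3 * L - 2) := by omega
    have h3 : 0 * (L + M) + (3 * L - 2) + (L + M) = 1 * (L + M) + (3 * L - 2) := by ring
    rw [e0, h3, F2_ge _ _ _ _ (by omega) (by omega), F2_ge _ _ _ _ (by omega) (by omega)]
    unfold phi
    split_ifs <;> omega

/-- **The exact preperiod of the cash thresholds.**  Let `1 ≤ L ≤ M`.  The defining recursion
has exactly one solution `(fI, fII)`.  If `L = 1` or `L = M`, both thresholds satisfy
`f (n + L + M) = f n + M` for all `n`.  If `2 ≤ L < M`, this holds for `fI` for all `n ≥ N` if and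
only if `N ≥ thI`, and for `fII` for all `n ≥ N` if and only if `N ≥ thII`. -/
theorem result (L M : ℕ) (hL : 1 ≤ L) (hLM : L ≤ M) :
    ∃ fI fII : ℕ → ℕ, IsCashThreshold L M fI fII ∧
      (∀ gI gII : ℕ → ℕ, IsCashThreshold L M gI gII → gI = fI ∧ gII = fII) ∧
      ((L = 1 ∨ M = L) → ∀ n, fI (n + (L + M)) = fI n + M ∧ fII (n + (L + M)) = fII n + M) ∧
      (2 ≤ L → L < M → ∀ N : ℕ,
        ((∀ n, N ≤ n → fI (n + (L + M)) = fI n + M) ↔ thI L M ≤ N) ∧
        ((∀ n, N ≤ n → fII (n + (L + M)) = fII n + M) ↔ thII L M ≤ N)) := by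
  refine ⟨F1 L M, F2 L M, isCashThreshold_F L M hL hLM, ?_, ?_, ?_⟩
  · intro gI gII hg
    have := unique L M hL hLM hg (isCashThreshold_F L M hL hLM)
    exact ⟨funext fun n => (this n).1, funext fun n => (this n).2⟩
  · exact easy L M hL hLM
  · intro hL2 hLM' N
    have hp1 : 1 ≤ thI L M := by unfold thI; omega
    have hp2 : 1 ≤ thII L M := by unfold thII; split_ifs <;> omega
    refine ⟨⟨fun h => ?_, fun h n hn => F1_shift L M hL2 hLM' n (h.trans hn)⟩,
      ⟨fun h => ?_, fun h n hn => F2_shift L M hL2 hLM' n (h.trans hn)⟩⟩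
    · by_contra hc
      exact F1_fail L M hL2 hLM' (h _ (by omega))
    · by_contra hc
      exact F2_fail L M hL2 hLM' (h _ (by omega))

end Pool.Agent.Results.MP_88cfb8_co.ExactPreperiod
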